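import Mathlib

open Polynomial NumberField

namespace Pool.Agent.Lib.MP_6f6b5b_nt

/-- the defining polynomial `x^3 - 19 x^2 - 29 x + 25` -/
noncomputable def fpoly : ℚ[X] := X ^ 3 - 19 * X ^ 2 - 29 * X + 25

/-- its integral version -/
noncomputable def fpolyZ : ℤ[X] := X ^ 3 - 19 * X ^ 2 - 29 * X + 25

lemma fpolyZ_map : fpolyZ.map (algebraMap ℤ ℚ) = fpoly := by
  simp [fpolyZ, fpoly]

lemma fpolyZ_natDegree : fpolyZ.natDegree = 3 := by
  unfold fpolyZ; compute_degree!

lemma fpolyZ_monic : fpolyZ.Monic := by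
  unfold fpolyZ; monicity!

lemma fpoly_natDegree : fpoly.natDegree = 3 := by
  unfold fpoly; compute_degree!

lemma fpoly_monic : fpoly.Monic := by
  unfold fpoly; monicity!

lemma fpolyZ_mod3 : (fpolyZ.map (Int.castRingHom (ZMod 3))) = X ^ 3 - X ^ 2 + X + 1 := by
  simp only [fpolyZ, Polynomial.map_add, Polynomial.map_sub, Polynomial.map_mul,
    Polynomial.map_pow, Polynomial.map_X, Polynomial.map_ofNat]
  have h19 : (19 : (ZMod 3)[X]) = 1 := by
    have : (19 : ZMod 3) = 1 := by decide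
    calc (19 : (ZMod 3)[X]) = C (19 : ZMod 3) := (map_ofNat C 19).symm
      _ = 1 := by rw [this, C_1]
  have h29 : (29 : (ZMod 3)[X]) = -1 := by
    have : (29 : ZMod 3) = -1 := by decide
    calc (29 : (ZMod 3)[X]) = C (29 : ZMod 3) := (map_ofNat C 29).symm
      _ = -1 := by rw [this, C_neg, C_1]
  have h25 : (25 : (ZMod 3)[X]) = 1 := by
    have : (25 : ZMod 3) = 1 := by decide
    calc (25 : (ZMod 3)[X]) = C (25 : ZMod 3) := (map_ofNat C 25).symm
      _ = 1 := by rw [this, C_1]
  rw [h19, h29, h25]; ring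

instance : Fact (Nat.Prime 3) := ⟨by norm_num⟩

lemma irr3 : Irreducible (X ^ 3 - X ^ 2 + X + 1 : (ZMod 3)[X]) := by
  have hdeg : (X ^ 3 - X ^ 2 + X + 1 : (ZMod 3)[X]).natDegree = 3 := by compute_degree!
  apply irreducible_of_degree_le_three_of_not_isRoot
  · rw [hdeg]; decide
  · intro x
    simp only [IsRoot.def, eval_add, eval_sub, eval_pow, eval_X, eval_one]
    revert x
    decide

lemma fpolyZ_irreducible : Irreducible fpolyZ := by
  apply Monic.irreducible_of_irreducible_map (Int.castRingHom (ZMod 3)) _ fpolyZ_monic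
  rw [fpolyZ_mod3]
  exact irr3

lemma fpoly_irreducible : Irreducible fpoly := by
  rw [← fpolyZ_map]
  exact (fpolyZ_monic.irreducible_iff_irreducible_map_fraction_map (K := ℚ)).mp fpolyZ_irreducible

instance : Fact (Irreducible fpoly) := ⟨fpoly_irreducible⟩

/-- The cubic field `ℚ(ζ)`, `ζ^3 - 19 ζ^2 - 29 ζ + 25 = 0`. -/
abbrev KK : Type := AdjoinRoot fpoly

/-- The generator. -/
noncomputable def ζ : KK := AdjoinRoot.root fpoly

lemma eval₂_fpoly {R : Type*} [CommRing R] (g : ℚ →+* R) (z : R) :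
    eval₂ g z fpoly = z ^ 3 - 19 * z ^ 2 - 29 * z + 25 := by
  unfold fpoly
  simp only [eval₂_add, eval₂_sub, eval₂_mul, eval₂_pow, eval₂_X, eval₂_ofNat]

lemma zeta_cubic : ζ ^ 3 = 19 * ζ ^ 2 + 29 * ζ - 25 := by
  have h : eval₂ (AdjoinRoot.of fpoly) ζ fpoly = 0 := AdjoinRoot.eval₂_root fpoly
  rw [eval₂_fpoly] at h
  linear_combination h

/-- The power basis `1, ζ, ζ²`. -/
noncomputable def pbasis : Module.Basis (Fin 3) ℚ KK :=
  (AdjoinRoot.powerBasis fpoly_monic.ne_zero).basis.reindex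
    (finCongr (by rw [AdjoinRoot.powerBasis_dim, fpoly_natDegree]))

lemma pbasis_apply (i : Fin 3) : pbasis i = ζ ^ (i : ℕ) := by
  simp [pbasis, ζ]

instance : FiniteDimensional ℚ KK := pbasis.finiteDimensional_of_finite

instance : NumberField KK where
  to_charZero := inferInstance
  to_finiteDimensional := inferInstance

lemma finrank_KK : Module.finrank ℚ KK = 3 := by
  rw [Module.finrank_eq_card_basis pbasis]; simp

lemma exists_coords (x : KK) : ∃ a b c : ℚ, x = a + b * ζ + c * ζ ^ 2 := by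
  refine ⟨pbasis.repr x 0, pbasis.repr x 1, pbasis.repr x 2, ?_⟩
  have h := pbasis.sum_repr x
  rw [Fin.sum_univ_three, pbasis_apply, pbasis_apply, pbasis_apply] at h
  simp only [Algebra.smul_def] at h
  conv_lhs => rw [← h]
  simp

lemma coords_ext {a b c a' b' c' : ℚ}
    (h : (a : KK) + b * ζ + c * ζ ^ 2 = (a' : KK) + b' * ζ + c' * ζ ^ 2) :
    a = a' ∧ b = b' ∧ c = c' := by
  have hli := pbasis.linearIndependent
  rw [Fintype.linearIndependent_iff] at hli
  have h0 : ∑ i : Fin 3, (![a - a', b - b', c - c'] i) • pbasis i = 0 := by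
    rw [Fin.sum_univ_three, pbasis_apply, pbasis_apply, pbasis_apply]
    simp only [Algebra.smul_def]
    simp
    linear_combination h
  have := hli _ h0
  have h1 := this 0
  have h2 := this 1
  have h3 := this 2
  simp at h1 h2 h3
  exact ⟨by linarith, by linarith, by linarith⟩

end Pool.Agent.Lib.MP_6f6b5b_nt
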