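import Mathlib
import Pool.Agent.Lib.MP_6f6b5b_nt.Field

open Polynomial NumberField

namespace Pool.Agent.Lib.MP_6f6b5b_nt

/-- element with given coordinates -/
noncomputable def el (a b c : ℚ) : KK := (a : KK) + b * ζ + c * ζ ^ 2

lemma el_eq_sum (a b c : ℚ) : el a b c = ∑ i : Fin 3, (![a, b, c] i) • pbasis i := by
  rw [Fin.sum_univ_three, pbasis_apply, pbasis_apply, pbasis_apply]
  simp [el, Algebra.smul_def]

lemma repr_el (a b c : ℚ) (i : Fin 3) : pbasis.repr (el a b c) i = ![a, b, c] i := by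
  rw [el_eq_sum, Module.Basis.repr_sum_self]

/-- multiplication matrix of `ζ` -/
def Mz : Matrix (Fin 3) (Fin 3) ℚ := !![0, 0, -25; 1, 0, 29; 0, 1, 19]

lemma lmm_zeta : Algebra.leftMulMatrix pbasis ζ = Mz := by
  ext i j
  rw [Algebra.leftMulMatrix_eq_repr_mul]
  have e0 : ζ * pbasis 0 = el 0 1 0 := by rw [pbasis_apply]; simp [el]
  have e1 : ζ * pbasis 1 = el 0 0 1 := by rw [pbasis_apply]; simp [el]; ring
  have e2 : ζ * pbasis 2 = el (-25) 29 19 := by
    rw [pbasis_apply]; simp [el]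
    linear_combination zeta_cubic
  fin_cases j
  · show pbasis.repr (ζ * pbasis 0) i = _
    rw [e0, repr_el]; fin_cases i <;> simp [Mz]
  · show pbasis.repr (ζ * pbasis 1) i = _
    rw [e1, repr_el]; fin_cases i <;> simp [Mz]
  · show pbasis.repr (ζ * pbasis 2) i = _
    rw [e2, repr_el]; fin_cases i <;> simp [Mz]

lemma lmm_el (a b c : ℚ) : Algebra.leftMulMatrix pbasis (el a b c) =
    !![a, -25 * c, -25 * b - 475 * c; b, a + 29 * c, 29 * b + 526 * c;
      c, b + 19 * c, a + 19 * b + 390 * c] := by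
  have h : el a b c = algebraMap ℚ KK a + algebraMap ℚ KK b * ζ + algebraMap ℚ KK c * ζ ^ 2 := by
    simp [el]
  rw [h, map_add, map_add, map_mul, map_mul, map_pow, lmm_zeta, AlgHom.commutes, AlgHom.commutes,
    AlgHom.commutes]
  ext i j
  fin_cases i <;> fin_cases j <;>
    simp [Mz, Matrix.algebraMap_matrix_apply, sq, Matrix.mul_apply, Fin.sum_univ_three] <;> ring

lemma trace_el (a b c : ℚ) : Algebra.trace ℚ KK (el a b c) = 3 * a + 19 * b + 419 * c := by
  rw [Algebra.trace_eq_matrix_trace pbasis, lmm_el, Matrix.trace_fin_three]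
  simp; ring

/-- The norm form. -/
def normPoly {R : Type*} [CommRing R] (a b c : R) : R :=
  a * ((a + 29 * c) * (a + 19 * b + 390 * c) - (29 * b + 526 * c) * (b + 19 * c))
    + 25 * c * (b * (a + 19 * b + 390 * c) - (29 * b + 526 * c) * c)
    - (25 * b + 475 * c) * (b * (b + 19 * c) - (a + 29 * c) * c)

lemma norm_el (a b c : ℚ) : Algebra.norm ℚ (el a b c) = normPoly a b c := by
  rw [Algebra.norm_eq_matrix_det pbasis, lmm_el, Matrix.det_fin_three]
  simp [normPoly]; ring

lemma el_mul (a b c a' b' c' : ℚ) : el a b c * el a' b' c' =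
    el (a * a' - 25 * (b * c' + c * b') - 475 * c * c')
      (a * b' + b * a' + 29 * (b * c' + c * b') + 526 * c * c')
      (a * c' + b * b' + c * a' + 19 * (b * c' + c * b') + 390 * c * c') := by
  simp only [el]
  push_cast
  linear_combination ((b : KK) * c' + c * b' + c * c' * (ζ + 19)) * zeta_cubic

lemma el_surj (x : KK) : ∃ a b c : ℚ, x = el a b c := exists_coords x

lemma el_inj {a b c a' b' c' : ℚ} (h : el a b c = el a' b' c') : a = a' ∧ b = b' ∧ c = c' :=
  coords_ext h

end Pool.Agent.Lib.MP_6f6b5b_nt
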