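import Mathlib

/-!
Definitions for `MP_6f6b5b_nt`: property (T) of a totally real number field and the two families of
cubic fields.
-/

open Polynomial NumberField

namespace Pool.Agent.Lib.MP_6f6b5b_nt

variable (K : Type*) [Field K]

variable {K} in
/-- `x` is totally positive: positive under every embedding of `K` in `ℝ`. -/
def TotPos (x : K) : Prop := ∀ φ : K →+* ℝ, 0 < φ x

variable [NumberField K]

/-- The trace dual of the ring of integers: `{x : tr (x m) ∈ ℤ for all m ∈ 𝓞 K}`. -/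
def dualLattice : Set K := {x | ∀ m : 𝓞 K, ∃ n : ℤ, Algebra.trace ℚ K (x * (m : K)) = (n : ℚ)}

/-- `Λ_q(𝓞 K)`: the totally positive `x` of the trace dual with `tr (x m) < q` for some totally
positive `m ∈ 𝓞 K`, together with `0`. -/
def Lambda (q : ℤ) : Set K :=
  {x | x ∈ dualLattice K ∧ TotPos x ∧
    ∃ m : 𝓞 K, TotPos (m : K) ∧ Algebra.trace ℚ K (x * (m : K)) < (q : ℚ)} ∪ {0}

/-- Property (T): for every integer `q ≥ 1`, the orbit of every element of `Λ_q(𝓞 K)` under the
group `V` of totally positive units contains an element of trace `< q`. -/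
def PropertyT : Prop :=
  ∀ q : ℤ, 1 ≤ q → ∀ x ∈ Lambda K q,
    ∃ u : (𝓞 K)ˣ, TotPos ((u : 𝓞 K) : K) ∧
      Algebra.trace ℚ K (((u : 𝓞 K) : K) * x) < (q : ℚ)

/-- The polynomial `x (x - r) (x - s) - 1`. -/
noncomputable def polyRS (r s : ℤ) : ℚ[X] := X * (X - C (r : ℚ)) * (X - C (s : ℚ)) - 1

/-- The polynomial `x^3 + (n + 1) x^2 + (n - 2) x - 1`. -/
noncomputable def polyN (n : ℤ) : ℚ[X] :=
  X ^ 3 + C ((n : ℚ) + 1) * X ^ 2 + C ((n : ℚ) - 2) * X - 1

end Pool.Agent.Lib.MP_6f6b5b_nt
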