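import Mathlib
import Pool.Agent.Lib.MP_6f6b5b_nt.Coords

open Polynomial NumberField

namespace Pool.Agent.Lib.MP_6f6b5b_nt

lemma zeta_integral : IsIntegral ℤ ζ := by
  refine ⟨fpolyZ, fpolyZ_monic, ?_⟩
  have : eval₂ (algebraMap ℤ KK) ζ fpolyZ = ζ ^ 3 - 19 * ζ ^ 2 - 29 * ζ + 25 := by
    unfold fpolyZ
    simp only [eval₂_add, eval₂_sub, eval₂_mul, eval₂_pow, eval₂_X, eval₂_ofNat]
  rw [this]
  linear_combination zeta_cubic

lemma el_integral (a b c : ℤ) : IsIntegral ℤ (el a b c) := by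
  unfold el
  have h : ∀ n : ℤ, IsIntegral ℤ (((n : ℚ)) : KK) := by
    intro n
    have : (((n : ℚ)) : KK) = algebraMap ℤ KK n := by simp
    rw [this]; exact isIntegral_algebraMap
  exact ((h a).add ((h b).mul zeta_integral)).add ((h c).mul (zeta_integral.pow 2))

lemma pbasis_integral (i : Fin 3) : IsIntegral ℤ (pbasis i) := by
  rw [pbasis_apply]; exact zeta_integral.pow _

lemma tr0 : Algebra.trace ℚ KK 1 = 3 := by
  have := trace_el 1 0 0
  simpa [el] using this

lemma tr1 : Algebra.trace ℚ KK ζ = 19 := by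
  have := trace_el 0 1 0
  simpa [el] using this

lemma tr2 : Algebra.trace ℚ KK (ζ ^ 2) = 419 := by
  have := trace_el 0 0 1
  simpa [el] using this

lemma tr3 : Algebra.trace ℚ KK (ζ ^ 3) = 8437 := by
  have h : ζ ^ 3 = el (-25) 29 19 := by
    simp only [el]; push_cast; linear_combination zeta_cubic
  rw [h, trace_el]; norm_num

lemma tr4 : Algebra.trace ℚ KK (ζ ^ 4) = 171979 := by
  have h : ζ ^ 4 = el (-475) 526 390 := by
    simp only [el]; push_cast; linear_combination (ζ + 19) * zeta_cubic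
  rw [h, trace_el]; norm_num

lemma discr_pbasis : Algebra.discr ℚ pbasis = 1318132 := by
  rw [Algebra.discr_def, Matrix.det_fin_three]
  simp only [Algebra.traceMatrix_apply, Algebra.traceForm_apply, pbasis_apply]
  have e : ∀ i j : Fin 3, ζ ^ (i : ℕ) * ζ ^ (j : ℕ) = ζ ^ ((i : ℕ) + (j : ℕ)) := fun i j => by
    rw [pow_add]
  simp only [e]
  norm_num [tr0, tr1, tr2, tr3, tr4]

lemma sq_dvd {k : ℕ} (h : k ^ 2 ∣ 1318132) : k = 1 ∨ k = 2 := by
  have hp : Nat.Prime 329533 := by norm_num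
  have hk : ¬ 329533 ∣ k := by
    intro hd
    have h1 : 329533 ^ 2 ∣ 1318132 := (pow_dvd_pow_of_dvd hd 2).trans h
    norm_num at h1
  have hc : Nat.Coprime (k ^ 2) 329533 := by
    apply Nat.Coprime.pow_left
    exact ((Nat.Prime.coprime_iff_not_dvd hp).mpr hk).symm
  have h2 : k ^ 2 ∣ 4 := by
    apply hc.dvd_of_dvd_mul_right
    norm_num
    exact h
  have h3 : k ^ 2 ≤ 4 := Nat.le_of_dvd (by norm_num) h2
  have h4 : k ≤ 2 := by nlinarith
  interval_cases k
  · norm_num at h2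
  · left; rfl
  · right; rfl

/-- If `x` is integral, `2 x` lies in `ℤ[ζ]`. -/
lemma two_mul_mem (x : 𝓞 KK) : ∃ a b c : ℤ, 2 * (x : KK) = el a b c := by
  have hcard : Fintype.card (Module.Free.ChooseBasisIndex ℤ (𝓞 KK)) = 3 := by
    rw [← Module.finrank_eq_card_basis (RingOfIntegers.basis KK), RingOfIntegers.rank, finrank_KK]
  let e := Fintype.equivFinOfCardEq hcard
  let B := (integralBasis KK).reindex e
  have hint : ∀ (y : KK) (_ : IsIntegral ℤ y) (i : Fin 3), ∃ n : ℤ, B.repr y i = (n : ℚ) := by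
    intro y hy i
    have h := integralBasis_repr_apply KK ⟨y, hy⟩ (e.symm i)
    refine ⟨(RingOfIntegers.basis KK).repr ⟨y, hy⟩ (e.symm i), ?_⟩
    rw [Module.Basis.repr_reindex_apply]
    exact h
  choose P hP using fun (i j : Fin 3) => hint (pbasis j) (pbasis_integral j) i
  choose X hX using fun i : Fin 3 => hint (x : KK) x.2 i
  let Pm : Matrix (Fin 3) (Fin 3) ℤ := Matrix.of P
  have hPm : B.toMatrix pbasis = Pm.map (Int.cast : ℤ → ℚ) := by
    ext i j
    rw [Module.Basis.toMatrix_apply, hP]; rfl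
  have hd := Algebra.discr_of_matrix_vecMul (A := ℚ) B (B.toMatrix pbasis)
  rw [Module.Basis.toMatrix_map_vecMul, discr_pbasis] at hd
  have hB : Algebra.discr ℚ B = (NumberField.discr KK : ℚ) := by
    rw [NumberField.coe_discr]
    have : (B : Fin 3 → KK) = (integralBasis KK) ∘ e.symm := by
      ext i; simp [B]
    rw [this, Algebra.discr_reindex]
  rw [hB] at hd
  have hdet : (B.toMatrix pbasis).det = ((Pm.det : ℤ) : ℚ) := by
    rw [hPm]
    exact (Int.cast_det Pm).symm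
  rw [hdet] at hd
  have hd' : (1318132 : ℤ) = Pm.det ^ 2 * NumberField.discr KK := by exact_mod_cast hd
  have hk : (Pm.det.natAbs) ^ 2 ∣ 1318132 := by
    have : Pm.det ^ 2 ∣ 1318132 := ⟨_, hd'⟩
    rw [← Int.natAbs_dvd_natAbs, Int.natAbs_pow] at this
    simpa using this
  -- coordinates
  obtain ⟨a, b, c, habc⟩ := el_surj (x : KK)
  have hmul : (B.toMatrix pbasis).mulVec ![a, b, c] = fun i => (X i : ℚ) := by
    have h1 := Module.Basis.toMatrix_mulVec_repr pbasis B (x : KK)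
    have h2 : (pbasis.repr (x : KK) : Fin 3 → ℚ) = ![a, b, c] := by
      ext i; rw [habc, repr_el]
    rw [h2] at h1
    rw [h1]
    ext i
    exact hX i
  have hadj : ∀ i, (Pm.det : ℚ) * (![a, b, c] i) = ((Pm.adjugate.mulVec X i : ℤ) : ℚ) := by
    intro i
    have h1 : (Pm.map (Int.castRingHom ℚ)).adjugate.mulVec
        ((Pm.map (Int.castRingHom ℚ)).mulVec ![a, b, c]) =
        (Pm.map (Int.castRingHom ℚ)).det • ![a, b, c] := by
      rw [Matrix.mulVec_mulVec, Matrix.adjugate_mul, Matrix.smul_mulVec, Matrix.one_mulVec]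
    have h2 : (Pm.map (Int.castRingHom ℚ)).mulVec ![a, b, c] = (Int.castRingHom ℚ) ∘ X := by
      have : B.toMatrix pbasis = Pm.map (Int.castRingHom ℚ) := hPm
      rw [← this, hmul]; rfl
    have h3 : (Pm.map (Int.castRingHom ℚ)).adjugate = Pm.adjugate.map (Int.castRingHom ℚ) :=
      ((Int.castRingHom ℚ).map_adjugate Pm).symm
    have h4 : (Pm.map (Int.castRingHom ℚ)).det = (Pm.det : ℚ) :=
      ((Int.castRingHom ℚ).map_det Pm).symm
    rw [h2, h3, h4] at h1
    have h5 := congrFun h1 i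
    rw [← RingHom.map_mulVec] at h5
    rw [Pi.smul_apply, smul_eq_mul] at h5
    rw [← h5]; rfl
  have hdet2 : ∃ s : ℤ, s * Pm.det = 2 := by
    rcases sq_dvd hk with h | h
    · rcases Int.natAbs_eq Pm.det with h' | h'
      · exact ⟨2, by rw [h', h]; norm_num⟩
      · exact ⟨-2, by rw [h', h]; norm_num⟩
    · rcases Int.natAbs_eq Pm.det with h' | h'
      · exact ⟨1, by rw [h', h]; norm_num⟩
      · exact ⟨-1, by rw [h', h]; norm_num⟩
  obtain ⟨s, hs⟩ := hdet2
  have hfin : ∀ i, 2 * (![a, b, c] i) = ((s * Pm.adjugate.mulVec X i : ℤ) : ℚ) := by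
    intro i
    push_cast
    rw [← hadj i, ← mul_assoc]
    congr 1
    exact_mod_cast hs.symm
  refine ⟨s * Pm.adjugate.mulVec X 0, s * Pm.adjugate.mulVec X 1, s * Pm.adjugate.mulVec X 2, ?_⟩
  rw [← hfin 0, ← hfin 1, ← hfin 2, habc]
  simp only [el]
  simp
  ring

lemma norm_mod8 : ∀ a b c : ZMod 8, normPoly a b c = 0 →
    (4 * a = 0 ∧ 4 * b = 0 ∧ 4 * c = 0) := by
  unfold normPoly
  decide +kernel

/-- The ring of integers is `ℤ[ζ]`. -/
theorem integral_coords (x : 𝓞 KK) : ∃ a b c : ℤ, (x : KK) = el a b c := by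
  obtain ⟨a, b, c, h⟩ := two_mul_mem x
  have hN : Algebra.norm ℚ (2 * (x : KK)) = ((8 * Algebra.norm ℤ x : ℤ) : ℚ) := by
    have h2 : (2 : KK) = algebraMap ℚ KK 2 := by simp
    rw [map_mul, h2, Algebra.norm_algebraMap, finrank_KK]
    push_cast
    rw [Algebra.coe_norm_int]
    norm_num
  rw [h, norm_el] at hN
  have hN' : normPoly a b c = 8 * Algebra.norm ℤ x := by
    have : normPoly (a : ℚ) (b : ℚ) (c : ℚ) = ((normPoly a b c : ℤ) : ℚ) := by
      simp only [normPoly]; push_cast; ring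
    rw [this] at hN
    exact_mod_cast hN
  have h8 : normPoly (a : ZMod 8) (b : ZMod 8) (c : ZMod 8) = 0 := by
    have : normPoly (a : ZMod 8) (b : ZMod 8) (c : ZMod 8) = ((normPoly a b c : ℤ) : ZMod 8) := by
      simp only [normPoly]; push_cast; ring
    rw [this, hN']
    push_cast
    have : (8 : ZMod 8) = 0 := by decide
    rw [this, zero_mul]
  obtain ⟨ha, hb, hc⟩ := norm_mod8 _ _ _ h8
  have conv : ∀ n : ℤ, (4 * (n : ZMod 8)) = 0 → ∃ m : ℤ, n = 2 * m := by
    intro n hn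
    have : (8 : ℤ) ∣ 4 * n := by
      have h1 : ((4 * n : ℤ) : ZMod 8) = 0 := by push_cast; exact hn
      exact (ZMod.intCast_zmod_eq_zero_iff_dvd (4 * n) 8).mp h1
    obtain ⟨m, hm⟩ := this
    exact ⟨m, by omega⟩
  obtain ⟨a', rfl⟩ := conv a ha
  obtain ⟨b', rfl⟩ := conv b hb
  obtain ⟨c', rfl⟩ := conv c hc
  refine ⟨a', b', c', ?_⟩
  have h3 : (2 : KK) * x = 2 * el a' b' c' := by
    rw [h]
    simp only [el]
    push_cast
    ring
  exact mul_left_cancel₀ two_ne_zero h3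

end Pool.Agent.Lib.MP_6f6b5b_nt
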