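import Mathlib
import Pool.Agent.Lib.MP_6f6b5b_nt.Integral
import Pool.Agent.Lib.MP_6f6b5b_nt.Defs

open Polynomial NumberField

namespace Pool.Agent.Lib.MP_6f6b5b_nt

/-- the cubic has two distinct real roots -/
lemma real_roots : ∃ r₁ r₂ : ℝ, r₁ ≠ r₂ ∧ r₁ ^ 3 - 19 * r₁ ^ 2 - 29 * r₁ + 25 = 0 ∧
    r₂ ^ 3 - 19 * r₂ ^ 2 - 29 * r₂ + 25 = 0 := by
  have hc : Continuous fun r : ℝ => r ^ 3 - 19 * r ^ 2 - 29 * r + 25 := by fun_prop
  obtain ⟨r₁, h1, h1'⟩ := intermediate_value_Icc (a := (-2 : ℝ)) (b := 0) (by norm_num)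
    hc.continuousOn (show (0 : ℝ) ∈ Set.Icc _ _ by constructor <;> norm_num)
  obtain ⟨r₂, h2, h2'⟩ := intermediate_value_Icc' (a := (1/2 : ℝ)) (b := 1) (by norm_num)
    hc.continuousOn (show (0 : ℝ) ∈ Set.Icc _ _ by constructor <;> norm_num)
  refine ⟨r₁, r₂, ?_, h1', h2'⟩
  have := h1.2
  have := h2.1
  intro h
  linarith

/-- every complex root is real -/
lemma root_real (z : ℂ) (hz : z ^ 3 - 19 * z ^ 2 - 29 * z + 25 = 0) : ∃ r : ℝ, z = r := by
  obtain ⟨r₁, r₂, hne, h1, h2⟩ := real_roots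
  have h12 : r₁ ^ 2 + r₁ * r₂ + r₂ ^ 2 - 19 * (r₁ + r₂) - 29 = 0 := by
    have : (r₁ - r₂) * (r₁ ^ 2 + r₁ * r₂ + r₂ ^ 2 - 19 * (r₁ + r₂) - 29) = 0 := by
      linear_combination h1 - h2
    rcases mul_eq_zero.mp this with h | h
    · exact absurd (sub_eq_zero.mp h) hne
    · exact h
  have h1c : (r₁ : ℂ) ^ 3 - 19 * (r₁ : ℂ) ^ 2 - 29 * (r₁ : ℂ) + 25 = 0 := by exact_mod_cast h1
  have h12c : (r₁ : ℂ) ^ 2 + r₁ * r₂ + (r₂ : ℂ) ^ 2 - 19 * (r₁ + r₂) - 29 = 0 := by
    exact_mod_cast h12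
  have hf : (z - r₁) * ((z - r₂) * (z - (19 - r₁ - r₂))) = 0 := by
    linear_combination hz - h1c - (z - r₁) * h12c
  rcases mul_eq_zero.mp hf with h | h
  · exact ⟨r₁, sub_eq_zero.mp h⟩
  rcases mul_eq_zero.mp h with h | h
  · exact ⟨r₂, sub_eq_zero.mp h⟩
  · exact ⟨19 - r₁ - r₂, by push_cast; exact sub_eq_zero.mp h⟩

lemma hom_real (φ : KK →+* ℂ) (x : KK) : ∃ r : ℝ, φ x = r := by
  obtain ⟨r, hr⟩ := root_real (φ ζ) (by
    have := congrArg φ zeta_cubic
    simp only [map_add, map_sub, map_mul, map_pow, map_ofNat] at this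
    linear_combination this)
  obtain ⟨a, b, c, rfl⟩ := el_surj x
  refine ⟨a + b * r + c * r ^ 2, ?_⟩
  simp only [el, map_add, map_mul, map_pow, hr, map_ratCast]
  push_cast
  ring

instance : NumberField.IsTotallyReal KK where
  isReal v := by
    rw [← NumberField.InfinitePlace.mk_embedding v, NumberField.InfinitePlace.isReal_mk_iff]
    rw [NumberField.ComplexEmbedding.isReal_iff]
    refine RingHom.ext fun x => ?_
    obtain ⟨r, hr⟩ := hom_real v.embedding x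
    rw [NumberField.ComplexEmbedding.conjugate_coe_eq, hr]
    simp

/-- the real embedding under a complex embedding -/
lemma exists_real_hom (φ : KK →+* ℂ) : ∃ ψ : KK →+* ℝ, ∀ x, φ x = (ψ x : ℂ) := by
  have hr : ∀ x, ((φ x).re : ℂ) = φ x := by
    intro x
    obtain ⟨r, hr⟩ := hom_real φ x
    rw [hr]; simp
  refine ⟨{ toFun := fun x => (φ x).re, map_one' := by simp, map_zero' := by simp,
            map_add' := fun x y => by simp, map_mul' := fun x y => ?_ }, fun x => (hr x).symm⟩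
  rw [map_mul]
  have h1 := hr x
  have h2 := hr y
  rw [← h1, ← h2]
  simp

lemma TotPos.trace_pos {x : KK} (hx : TotPos x) : 0 < Algebra.trace ℚ KK x := by
  have h := trace_eq_sum_embeddings (K := ℚ) (L := KK) ℂ (x := x)
  choose ψ hψ using fun σ : KK →ₐ[ℚ] ℂ => exists_real_hom σ.toRingHom
  have h2 : ((Algebra.trace ℚ KK x : ℚ) : ℝ) = ∑ σ : KK →ₐ[ℚ] ℂ, ψ σ x := by
    have : (((Algebra.trace ℚ KK x : ℚ) : ℝ) : ℂ) = ((∑ σ : KK →ₐ[ℚ] ℂ, ψ σ x : ℝ) : ℂ) := by
      push_cast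
      have h3 : algebraMap ℚ ℂ (Algebra.trace ℚ KK x) = ((Algebra.trace ℚ KK x : ℚ) : ℂ) := by simp
      rw [← h3, h]
      apply Finset.sum_congr rfl
      intro σ _
      exact hψ σ x
    exact_mod_cast this
  have hne : (Finset.univ : Finset (KK →ₐ[ℚ] ℂ)).Nonempty := by
    rw [← Finset.card_pos, Finset.card_univ, AlgHom.card, finrank_KK]
    norm_num
  have : (0 : ℝ) < ((Algebra.trace ℚ KK x : ℚ) : ℝ) := by
    rw [h2]
    exact Finset.sum_pos (fun σ _ => hx (ψ σ)) hne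
  exact_mod_cast this

lemma TotPos.mul {K : Type*} [Field K] {x y : K} (hx : TotPos x) (hy : TotPos y) : TotPos (x * y) :=
  fun φ => by rw [map_mul]; exact mul_pos (hx φ) (hy φ)

lemma TotPos.one {K : Type*} [Field K] : TotPos (1 : K) := fun φ => by rw [map_one]; norm_num

lemma totPos_of_cubic {x : KK} {s t n : ℚ} (hs : 0 < s) (ht : 0 < t) (hn : 0 < n)
    (h : x ^ 3 - s * x ^ 2 + t * x - n = 0) : TotPos x := by
  intro φ
  have h2 := congrArg φ h
  simp only [map_add, map_sub, map_mul, map_pow, map_ratCast, map_zero] at h2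
  by_contra hcon
  push Not at hcon
  have hs' : (0 : ℝ) < (s : ℝ) := by exact_mod_cast hs
  have ht' : (0 : ℝ) < (t : ℝ) := by exact_mod_cast ht
  have hn' : (0 : ℝ) < (n : ℝ) := by exact_mod_cast hn
  have h3 : (φ x) ^ 3 ≤ 0 := by
    have : (φ x) ^ 3 = (φ x) * (φ x) ^ 2 := by ring
    rw [this]
    exact mul_nonpos_of_nonpos_of_nonneg hcon (sq_nonneg _)
  have h4 : 0 ≤ s * (φ x) ^ 2 := by positivity
  have h5 : (t : ℝ) * φ x ≤ 0 := mul_nonpos_of_nonneg_of_nonpos ht'.le hcon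
  linarith

lemma totPos_e1 : TotPos (el 2 1 0) := by
  apply totPos_of_cubic (s := 25) (t := 59) (n := 1) (by norm_num) (by norm_num) (by norm_num)
  simp only [el]; push_cast
  linear_combination zeta_cubic

lemma totPos_e2 : TotPos (el 12 (-20) 1) := by
  apply totPos_of_cubic (s := 75) (t := 1079) (n := 1) (by norm_num) (by norm_num) (by norm_num)
  have h2 : el 12 (-20) 1 ^ 2 = el 12 (-20) 1 * el 12 (-20) 1 := by ring
  have h3 : el 12 (-20) 1 ^ 3 = el 12 (-20) 1 * el 12 (-20) 1 * el 12 (-20) 1 := by ring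
  rw [h3, h2, el_mul, el_mul]
  simp only [el]; push_cast
  ring_nf

/-- the element `δ` -/
noncomputable def dA : KK := el (140739 / 329533) (-31231 / 329533) (1195 / 329533)

lemma totPos_dA : TotPos dA := by
  apply totPos_of_cubic (s := 1) (t := 76989 / 329533) (n := 71 / 329533) (by norm_num)
    (by norm_num) (by norm_num)
  have h2 : dA ^ 2 = dA * dA := by ring
  have h3 : dA ^ 3 = dA * dA * dA := by ring
  rw [h3, h2]
  unfold dA
  rw [el_mul, el_mul]
  simp only [el]; push_cast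
  ring_nf

end Pool.Agent.Lib.MP_6f6b5b_nt
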