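import Mathlib
import Pool.Agent.Lib.MP_6f6b5b_nt.Positivity

open Polynomial NumberField

namespace Pool.Agent.Lib.MP_6f6b5b_nt

/-- a unit of the ring of integers from an integral element with integral inverse -/
def mkU (x y : KK) (hx : IsIntegral ℤ x) (hy : IsIntegral ℤ y) (h : x * y = 1) : (𝓞 KK)ˣ where
  val := ⟨x, hx⟩
  inv := ⟨y, hy⟩
  val_inv := by
    apply RingOfIntegers.ext
    exact h
  inv_val := by
    apply RingOfIntegers.ext
    rw [mul_comm] at h
    exact h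

lemma totPos_of_mul_eq_one {x y : KK} (hx : TotPos x) (h : x * y = 1) : TotPos y := by
  intro φ
  have h1 := congrArg φ h
  rw [map_mul, map_one] at h1
  have h2 := hx φ
  by_contra hcon
  push Not at hcon
  nlinarith

lemma one_eq_el : (1 : KK) = el 1 0 0 := by simp [el]

lemma e1_mul_inv : el 2 1 0 * el 13 (-21) 1 = 1 := by
  rw [el_mul, one_eq_el]; norm_num

lemma e2_mul_inv : el 12 (-20) 1 * el 848 386 (-21) = 1 := by
  rw [el_mul, one_eq_el]; norm_num

lemma e12_mul_inv : el (-1) 1 1 * el 324 147 (-8) = 1 := by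
  rw [el_mul, one_eq_el]; norm_num

lemma e1_mul_e2 : el 2 1 0 * el 12 (-20) 1 = el (-1) 1 1 := by
  rw [el_mul]; norm_num

lemma totPos_e12 : TotPos (el (-1) 1 1) := by
  rw [← e1_mul_e2]; exact totPos_e1.mul totPos_e2

lemma totPos_e1i : TotPos (el 13 (-21) 1) := totPos_of_mul_eq_one totPos_e1 e1_mul_inv

lemma totPos_e2i : TotPos (el 848 386 (-21)) := totPos_of_mul_eq_one totPos_e2 e2_mul_inv

lemma totPos_e12i : TotPos (el 324 147 (-8)) := totPos_of_mul_eq_one totPos_e12 e12_mul_inv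

lemma int_el (a b c : ℤ) : IsIntegral ℤ (el a b c) := el_integral a b c

/-- trace form in coordinates -/
lemma trace_dA_mul (a b c : ℚ) : Algebra.trace ℚ KK (dA * el a b c) = a - b + 3 * c := by
  unfold dA
  rw [el_mul, trace_el]
  ring

lemma LA {a b c : ℤ} (h : TotPos (el a b c)) : 1 ≤ a - b + 3 * c := by
  have h1 := (totPos_dA.mul h).trace_pos
  rw [trace_dA_mul] at h1
  have h2 : (0 : ℤ) < a - b + 3 * c := by exact_mod_cast h1
  omega

lemma LA1 {a b c : ℤ} (h : TotPos (el a b c)) : 1 ≤ a + b + 9 * c := by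
  have h1 := totPos_e1.mul h
  rw [el_mul] at h1
  have h2 := LA (a := 2 * a - 25 * c) (b := 2 * b + a + 29 * c) (c := 2 * c + b + 19 * c) (by
    convert h1 using 2 <;> push_cast <;> ring)
  omega

lemma LA12 {a b c : ℤ} (h : TotPos (el a b c)) : 1 ≤ a + 7 * b + 169 * c := by
  have h1 := totPos_e12.mul h
  rw [el_mul] at h1
  have h2 := LA (a := -a - 25 * (c + b) - 475 * c) (b := -b + a + 29 * (c + b) + 526 * c)
    (c := -c + b + a + 19 * (c + b) + 390 * c) (by
    convert h1 using 2 <;> push_cast <;> ring)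
  omega

lemma LA2i {a b c : ℤ} (h : TotPos (el a b c)) : 1 ≤ 399 * a + 247 * b + 153 * c := by
  have h1 := totPos_e2i.mul h
  rw [el_mul] at h1
  have h2 := LA (a := 848 * a - 25 * (386 * c - 21 * b) + 475 * 21 * c)
    (b := 848 * b + 386 * a + 29 * (386 * c - 21 * b) - 526 * 21 * c)
    (c := 848 * c + 386 * b - 21 * a + 19 * (386 * c - 21 * b) - 390 * 21 * c) (by
    convert h1 using 2 <;> push_cast <;> ring)
  omega

lemma LB {a b c : ℤ} (h : TotPos (el a b c)) : 21 ≤ 21 * a + 13 * b + 29 * c := by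
  have h1 := LA h
  have h2 := LA1 h
  have h3 := LA2i h
  omega

lemma LB2 {a b c : ℤ} (h : TotPos (el a b c)) : 21 ≤ 21 * a - 21 * b + 461 * c := by
  have h1 := totPos_e2.mul h
  rw [el_mul] at h1
  have h2 := LB (a := 12 * a - 25 * (-20 * c + b) - 475 * c)
    (b := 12 * b - 20 * a + 29 * (-20 * c + b) + 526 * c)
    (c := 12 * c - 20 * b + a + 19 * (-20 * c + b) + 390 * c) (by
    convert h1 using 2 <;> push_cast <;> ring)
  omega

lemma LB12 {a b c : ℤ} (h : TotPos (el a b c)) : 21 ≤ 21 * a + 419 * b + 8547 * c := by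
  have h1 := totPos_e12.mul h
  rw [el_mul] at h1
  have h2 := LB (a := -a - 25 * (c + b) - 475 * c) (b := -b + a + 29 * (c + b) + 526 * c)
    (c := -c + b + a + 19 * (c + b) + 390 * c) (by
    convert h1 using 2 <;> push_cast <;> ring)
  omega

/-- The cone inclusion: a functional `(l₀, l₁, l₂)` whose value at `1` is at most its value at the six
neighbours of `1` has its value at `1` at most its value at `(z₀ + 1, z₁, z₂)`. -/
lemma cone {l₀ l₁ l₂ z₀ z₁ z₂ : ℚ}
    (d1 : 0 ≤ 12 * l₀ - 21 * l₁ + l₂) (d2 : 0 ≤ 11 * l₀ - 20 * l₁ + l₂)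
    (d3 : 0 ≤ -2 * l₀ + l₁ + l₂) (d4 : 0 ≤ l₀ + l₁)
    (d5 : 0 ≤ 847 * l₀ + 386 * l₁ - 21 * l₂) (d6 : 0 ≤ 323 * l₀ + 147 * l₁ - 8 * l₂)
    (h1 : 0 ≤ z₀ + z₁ + 9 * z₂) (h2 : 0 ≤ 21 * z₀ + 13 * z₁ + 29 * z₂)
    (h3 : 0 ≤ z₀ - z₁ + 3 * z₂) (h4 : 0 ≤ 21 * z₀ - 21 * z₁ + 461 * z₂)
    (h5 : 0 ≤ z₀ + 7 * z₁ + 169 * z₂) (h6 : 0 ≤ 21 * z₀ + 419 * z₁ + 8547 * z₂) :
    0 ≤ l₀ * z₀ + l₁ * z₁ + l₂ * z₂ := by
  rcases le_total 0 (-407 * z₀ + 805 * z₁ - 1619 * z₂) with s5 | s5
  · have e1 := mul_nonneg h4 d3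
    have e2 := mul_nonneg s5 d4
    have e3 := mul_nonneg h3 d5
    linarith
  · rcases le_total (155 * z₀ - 307 * z₁ + 617 * z₂) 0 with s6 | s6
    · have e1 := mul_nonneg h5 d3
      have e2 := mul_nonneg (neg_nonneg.mpr s6) d5
      have e3 := mul_nonneg (neg_nonneg.mpr s5) d6
      linarith
    · rcases le_total 0 (22 * z₀ + 14 * z₁ + 30 * z₂) with s1 | s1
      · have e1 := mul_nonneg h6 d3
        have e2 := mul_nonneg s1 d6
        have e3 := mul_nonneg s6 d1
        linarith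
      · have e1 := mul_nonneg h1 d3
        have e2 := mul_nonneg h2 d1
        have e3 := mul_nonneg (neg_nonneg.mpr s1) d2
        linarith

/-- the values of the trace form -/
lemma trace_mul_el (y : KK) (a b c : ℚ) : Algebra.trace ℚ KK (y * el a b c) =
    a * Algebra.trace ℚ KK y + b * Algebra.trace ℚ KK (y * ζ) +
      c * Algebra.trace ℚ KK (y * ζ ^ 2) := by
  have : y * el a b c = a • y + b • (y * ζ) + c • (y * ζ ^ 2) := by
    simp only [el, Algebra.smul_def, eq_ratCast]; ring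
  rw [this, map_add, map_add, map_smul, map_smul, map_smul]
  simp

theorem propertyT : PropertyT KK := by
  intro q hq x hx
  rcases hx with ⟨hdual, hpos, m, hm, hlt⟩ | hx0
  · -- choose `u` minimising the trace
    have hex : ∃ n : ℕ, ∃ u : (𝓞 KK)ˣ, TotPos ((u : 𝓞 KK) : KK) ∧
        Algebra.trace ℚ KK (((u : 𝓞 KK) : KK) * x) = (n : ℚ) := by
      have h1 : TotPos (((1 : (𝓞 KK)ˣ) : 𝓞 KK) : KK) := by simpa using TotPos.one
      obtain ⟨n, hn⟩ := hdual ((1 : (𝓞 KK)ˣ) : 𝓞 KK)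
      have h2 := (hpos.mul h1).trace_pos
      rw [hn] at h2
      have h3 : 0 < n := by exact_mod_cast h2
      refine ⟨n.toNat, 1, h1, ?_⟩
      rw [mul_comm, hn]
      have : ((n.toNat : ℤ) : ℚ) = (n : ℚ) := by rw [Int.toNat_of_nonneg h3.le]
      exact_mod_cast this.symm
    classical
    obtain ⟨u, hu, hun⟩ := Nat.find_spec hex
    have hmin : ∀ v : (𝓞 KK)ˣ, TotPos ((v : 𝓞 KK) : KK) →
        Algebra.trace ℚ KK (((u : 𝓞 KK) : KK) * x) ≤ Algebra.trace ℚ KK (((v : 𝓞 KK) : KK) * x) := by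
      intro v hv
      obtain ⟨n, hn⟩ := hdual (v : 𝓞 KK)
      have h2 := (hpos.mul hv).trace_pos
      rw [hn] at h2
      have h3 : 0 < n := by exact_mod_cast h2
      have h4 : Nat.find hex ≤ n.toNat := by
        apply Nat.find_min'
        refine ⟨v, hv, ?_⟩
        rw [mul_comm, hn]
        have : ((n.toNat : ℤ) : ℚ) = (n : ℚ) := by rw [Int.toNat_of_nonneg h3.le]
        exact_mod_cast this.symm
      rw [hun, mul_comm _ x, hn]
      have h5 : ((Nat.find hex : ℕ) : ℤ) ≤ n := by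
        calc ((Nat.find hex : ℕ) : ℤ) ≤ (n.toNat : ℤ) := by exact_mod_cast h4
          _ = n := Int.toNat_of_nonneg h3.le
      exact_mod_cast h5
    set y : KK := ((u : 𝓞 KK) : KK) * x with hy
    have hymin : ∀ (a b c a' b' c' : ℤ), el a b c * el a' b' c' = 1 → TotPos (el a b c) →
        Algebra.trace ℚ KK y ≤ Algebra.trace ℚ KK (y * el a b c) := by
      intro a b c a' b' c' h1 h2
      have h3 := hmin (u * mkU (el a b c) (el a' b' c') (int_el a b c) (int_el a' b' c') h1) (by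
        have : (((u * mkU (el a b c) (el a' b' c') (int_el a b c) (int_el a' b' c') h1 :
            (𝓞 KK)ˣ) : 𝓞 KK) : KK) = ((u : 𝓞 KK) : KK) * el a b c := rfl
        rw [this]; exact hu.mul h2)
      have h4 : (((u * mkU (el a b c) (el a' b' c') (int_el a b c) (int_el a' b' c') h1 :
            (𝓞 KK)ˣ) : 𝓞 KK) : KK) * x = y * el a b c := by
        have : (((u * mkU (el a b c) (el a' b' c') (int_el a b c) (int_el a' b' c') h1 :
            (𝓞 KK)ˣ) : 𝓞 KK) : KK) = ((u : 𝓞 KK) : KK) * el a b c := rfl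
        rw [this, hy]; ring
      rw [h4] at h3
      exact h3
    -- the six inequalities
    have n1 := hymin 13 (-21) 1 2 1 0 (by
      push_cast; rw [mul_comm]; exact e1_mul_inv) (by push_cast; exact totPos_e1i)
    have n2 := hymin 12 (-20) 1 848 386 (-21) (by push_cast; exact e2_mul_inv)
      (by push_cast; exact totPos_e2)
    have n3 := hymin (-1) 1 1 324 147 (-8) (by push_cast; exact e12_mul_inv)
      (by push_cast; exact totPos_e12)
    have n4 := hymin 2 1 0 13 (-21) 1 (by push_cast; exact e1_mul_inv)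
      (by push_cast; exact totPos_e1)
    have n5 := hymin 848 386 (-21) 12 (-20) 1 (by
      push_cast; rw [mul_comm]; exact e2_mul_inv) (by push_cast; exact totPos_e2i)
    have n6 := hymin 324 147 (-8) (-1) 1 1 (by
      push_cast; rw [mul_comm]; exact e12_mul_inv) (by push_cast; exact totPos_e12i)
    rw [trace_mul_el] at n1 n2 n3 n4 n5 n6
    push_cast at n1 n2 n3 n4 n5 n6
    -- the element `m' = u⁻¹ m`
    set m' : 𝓞 KK := ((u⁻¹ : (𝓞 KK)ˣ) : 𝓞 KK) * m with hm'
    have huinv : ((u : 𝓞 KK) : KK) * (((u⁻¹ : (𝓞 KK)ˣ) : 𝓞 KK) : KK) = 1 := by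
      have := u.mul_inv
      exact_mod_cast congrArg (fun z : 𝓞 KK => (z : KK)) this
    have hm'pos : TotPos (m' : KK) := by
      have : (m' : KK) = (((u⁻¹ : (𝓞 KK)ˣ) : 𝓞 KK) : KK) * (m : KK) := rfl
      rw [this]
      exact (totPos_of_mul_eq_one hu huinv).mul hm
    have hym' : y * (m' : KK) = x * (m : KK) := by
      have : (m' : KK) = (((u⁻¹ : (𝓞 KK)ˣ) : 𝓞 KK) : KK) * (m : KK) := rfl
      rw [this, hy]
      linear_combination (x * (m : KK)) * huinv
    obtain ⟨a, b, c, habc⟩ := integral_coords m'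
    rw [habc] at hm'pos hym'
    have k1 := LA1 hm'pos
    have k2 := LB hm'pos
    have k3 := LA hm'pos
    have k4 := LB2 hm'pos
    have k5 := LA12 hm'pos
    have k6 := LB12 hm'pos
    have k1' : (1 : ℚ) ≤ a + b + 9 * c := by exact_mod_cast k1
    have k2' : (21 : ℚ) ≤ 21 * a + 13 * b + 29 * c := by exact_mod_cast k2
    have k3' : (1 : ℚ) ≤ a - b + 3 * c := by exact_mod_cast k3
    have k4' : (21 : ℚ) ≤ 21 * a - 21 * b + 461 * c := by exact_mod_cast k4
    have k5' : (1 : ℚ) ≤ a + 7 * b + 169 * c := by exact_mod_cast k5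
    have k6' : (21 : ℚ) ≤ 21 * a + 419 * b + 8547 * c := by exact_mod_cast k6
    have key := cone (l₀ := Algebra.trace ℚ KK y) (l₁ := Algebra.trace ℚ KK (y * ζ))
      (l₂ := Algebra.trace ℚ KK (y * ζ ^ 2)) (z₀ := (a : ℚ) - 1) (z₁ := b) (z₂ := c)
      (by linarith) (by linarith) (by linarith) (by linarith) (by linarith) (by linarith)
      (by linarith) (by linarith) (by linarith) (by linarith) (by linarith) (by linarith)
    refine ⟨u, hu, ?_⟩
    have h7 : Algebra.trace ℚ KK (x * (m : KK)) = a * Algebra.trace ℚ KK y +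
        b * Algebra.trace ℚ KK (y * ζ) + c * Algebra.trace ℚ KK (y * ζ ^ 2) := by
      rw [← hym', trace_mul_el]
    have h8 : Algebra.trace ℚ KK y ≤ Algebra.trace ℚ KK (x * (m : KK)) := by
      rw [h7]; linarith
    exact lt_of_le_of_lt h8 hlt
  · refine ⟨1, by simpa using TotPos.one, ?_⟩
    rw [Set.mem_singleton_iff] at hx0
    rw [hx0, mul_zero, map_zero]
    exact_mod_cast (by omega : (0 : ℤ) < q)

end Pool.Agent.Lib.MP_6f6b5b_nt
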