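import Mathlib
import Pool.Agent.Lib.MP_6f6b5b_nt.PropT

open Polynomial NumberField

namespace Pool.Agent.Lib.MP_6f6b5b_nt

section coords
variable {R : Type*} [CommRing R]

/-- coordinates of the square of `a + b ζ + c ζ²` -/
def s0 (a b c : R) : R := a ^ 2 - 50 * b * c - 475 * c ^ 2
/-- second coordinate of the square -/
def s1 (a b c : R) : R := 2 * a * b + 58 * b * c + 526 * c ^ 2
/-- third coordinate of the square -/
def s2 (a b c : R) : R := 2 * a * c + b ^ 2 + 38 * b * c + 390 * c ^ 2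
/-- first coordinate of the cube -/
def c0 (a b c : R) : R :=
  a * s0 a b c - 25 * (b * s2 a b c + c * s1 a b c) - 475 * c * s2 a b c
/-- second coordinate of the cube -/
def c1 (a b c : R) : R :=
  a * s1 a b c + b * s0 a b c + 29 * (b * s2 a b c + c * s1 a b c) + 526 * c * s2 a b c
/-- third coordinate of the cube -/
def c2 (a b c : R) : R :=
  a * s2 a b c + b * s1 a b c + c * s0 a b c + 19 * (b * s2 a b c + c * s1 a b c) +
    390 * c * s2 a b c

end coords

lemma el_sq (a b c : ℚ) : el a b c ^ 2 = el (s0 a b c) (s1 a b c) (s2 a b c) := by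
  rw [sq, el_mul]; congr 1 <;> simp only [s0, s1, s2] <;> ring

lemma el_cube (a b c : ℚ) : el a b c ^ 3 = el (c0 a b c) (c1 a b c) (c2 a b c) := by
  have : el a b c ^ 3 = el a b c * el a b c ^ 2 := by ring
  rw [this, el_sq, el_mul]; simp only [c0, c1, c2]

lemma cubic_coords {a b c p q : ℤ}
    (h : el a b c ^ 3 + (p : KK) * el a b c ^ 2 + (q : KK) * el a b c - 1 = 0) :
    c0 a b c + p * s0 a b c + q * a - 1 = 0 ∧ c1 a b c + p * s1 a b c + q * b = 0 ∧
      c2 a b c + p * s2 a b c + q * c = 0 := by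
  have h2 : el (c0 (a : ℚ) b c + p * s0 (a : ℚ) b c + q * a - 1)
      (c1 (a : ℚ) b c + p * s1 (a : ℚ) b c + q * b) (c2 (a : ℚ) b c + p * s2 (a : ℚ) b c + q * c) =
      el 0 0 0 := by
    have h0 : el 0 0 0 = 0 := by simp [el]
    rw [h0, ← h, el_cube, el_sq]
    simp only [el]
    push_cast
    ring
  obtain ⟨e0, e1, e2⟩ := el_inj h2
  refine ⟨?_, ?_, ?_⟩
  · have : ((c0 a b c + p * s0 a b c + q * a - 1 : ℤ) : ℚ) = 0 := by
      rw [← e0]; simp only [c0, s0, s1, s2]; push_cast; ring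
    exact_mod_cast this
  · have : ((c1 a b c + p * s1 a b c + q * b : ℤ) : ℚ) = 0 := by
      rw [← e1]; simp only [c1, s0, s1, s2]; push_cast; ring
    exact_mod_cast this
  · have : ((c2 a b c + p * s2 a b c + q * c : ℤ) : ℚ) = 0 := by
      rw [← e2]; simp only [c2, s0, s1, s2]; push_cast; ring
    exact_mod_cast this

lemma mod2_n : ∀ a b c n : ZMod 2, c0 a b c + (n + 1) * s0 a b c + (n - 2) * a - 1 = 0 →
    c1 a b c + (n + 1) * s1 a b c + (n - 2) * b = 0 →
    c2 a b c + (n + 1) * s2 a b c + (n - 2) * c = 0 → False := by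
  unfold c0 c1 c2 s0 s1 s2
  decide +kernel

lemma mod2_rs : ∀ a b c r s : ZMod 2,
    c0 a b c + (-(r + s)) * s0 a b c + (r * s) * a - 1 = 0 →
    c1 a b c + (-(r + s)) * s1 a b c + (r * s) * b = 0 →
    c2 a b c + (-(r + s)) * s2 a b c + (r * s) * c = 0 → b = 0 ∧ c = 0 := by
  unfold c0 c1 c2 s0 s1 s2
  decide +kernel

lemma cast2 {n : ℤ} (h : n = 0) : ((n : ℤ) : ZMod 2) = 0 := by rw [h]; simp

lemma even_of_cast {n : ℤ} (h : (n : ZMod 2) = 0) : ∃ m, n = 2 * m :=
  (ZMod.intCast_zmod_eq_zero_iff_dvd n 2).mp h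

/-- every element is integral if it satisfies a monic integral cubic -/
lemma exists_int_coords {α : KK} {p q : ℤ} (h : α ^ 3 + (p : KK) * α ^ 2 + (q : KK) * α - 1 = 0) :
    ∃ a b c : ℤ, α = el a b c := by
  have hint : IsIntegral ℤ α := by
    refine ⟨X ^ 3 + C p * X ^ 2 + C q * X - 1, by monicity!, ?_⟩
    simp only [eval₂_add, eval₂_sub, eval₂_mul, eval₂_pow, eval₂_X, eval₂_C, eval₂_one]
    exact h
  exact integral_coords ⟨α, hint⟩

/-- no root of the cubic of `K_n` -/
lemma no_root_n (n : ℤ) (α : KK)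
    (h : α ^ 3 + ((n + 1 : ℤ) : KK) * α ^ 2 + ((n - 2 : ℤ) : KK) * α - 1 = 0) : False := by
  obtain ⟨a, b, c, rfl⟩ := exists_int_coords h
  obtain ⟨e0, e1, e2⟩ := cubic_coords h
  apply mod2_n a b c n
  · have := cast2 e0
    simp only [c0, s0, s1, s2] at this ⊢
    push_cast at this
    exact this
  · have := cast2 e1
    simp only [c1, s0, s1, s2] at this ⊢
    push_cast at this
    exact this
  · have := cast2 e2
    simp only [c2, s0, s1, s2] at this ⊢
    push_cast at this
    exact this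

/-- one step of the descent -/
lemma descent {r s a b c : ℤ} (k : ℕ)
    (h : el a (2 ^ k * b : ℤ) (2 ^ k * c : ℤ) ^ 3 +
      ((-(r + s) : ℤ) : KK) * el a (2 ^ k * b : ℤ) (2 ^ k * c : ℤ) ^ 2 +
      ((r * s : ℤ) : KK) * el a (2 ^ k * b : ℤ) (2 ^ k * c : ℤ) - 1 = 0) :
    (∃ m, b = 2 * m) ∧ (∃ m, c = 2 * m) := by
  obtain ⟨e0, e1, e2⟩ := cubic_coords h
  rcases k with _ | k
  · rw [pow_zero, one_mul, one_mul] at e0 e1 e2
    obtain ⟨hb, hc⟩ := mod2_rs a b c r s
      (by
        have := cast2 e0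
        simp only [c0, s0, s1, s2] at this ⊢
        push_cast at this
        exact this)
      (by
        have := cast2 e1
        simp only [c1, s0, s1, s2] at this ⊢
        push_cast at this
        exact this)
      (by
        have := cast2 e2
        simp only [c2, s0, s1, s2] at this ⊢
        push_cast at this
        exact this)
    exact ⟨even_of_cast hb, even_of_cast hc⟩
  · set t : ℤ := 2 ^ (k + 1) with ht
    have ht0 : t ≠ 0 := by positivity
    have hteven : t = 2 * 2 ^ k := by rw [ht, pow_succ]; ring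
    have f1 : (3 * a ^ 2 - 2 * (r + s) * a + r * s) * b +
        t * ((3 * a - (r + s)) * (58 * b * c + 526 * c ^ 2) + t * c1 0 b c) = 0 := by
      have : t * ((3 * a ^ 2 - 2 * (r + s) * a + r * s) * b +
        t * ((3 * a - (r + s)) * (58 * b * c + 526 * c ^ 2) + t * c1 0 b c)) = 0 := by
        simp only [c1, s0, s1, s2] at e1 ⊢
        linear_combination e1
      exact (mul_eq_zero.mp this).resolve_left ht0
    have f2 : (3 * a ^ 2 - 2 * (r + s) * a + r * s) * c +
        t * ((3 * a - (r + s)) * (b ^ 2 + 38 * b * c + 390 * c ^ 2) + t * c2 0 b c) = 0 := by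
      have : t * ((3 * a ^ 2 - 2 * (r + s) * a + r * s) * c +
        t * ((3 * a - (r + s)) * (b ^ 2 + 38 * b * c + 390 * c ^ 2) + t * c2 0 b c)) = 0 := by
        simp only [c2, s0, s1, s2] at e2 ⊢
        linear_combination e2
      exact (mul_eq_zero.mp this).resolve_left ht0
    have f0 : a * (a - r) * (a - s) - 1 +
        t * (t * ((3 * a - (r + s)) * (-50 * b * c - 475 * c ^ 2) + t * c0 0 b c)) = 0 := by
      simp only [c0, s0, s1, s2] at e0 ⊢
      linear_combination e0
    -- parity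
    have hodd : Odd (a * (a - r) * (a - s)) := by
      rw [hteven] at f0
      refine ⟨-(2 ^ k * (2 * 2 ^ k * ((3 * a - (r + s)) * (-50 * b * c - 475 * c ^ 2) +
        2 * 2 ^ k * c0 0 b c))), ?_⟩
      linarith
    rw [Int.odd_mul, Int.odd_mul] at hodd
    obtain ⟨⟨ha, hr⟩, hs⟩ := hodd
    have hr' : Even r := by
      have := ha.sub_odd hr
      simpa using this
    have hs' : Even s := by
      have := ha.sub_odd hs
      simpa using this
    have hD : Odd (3 * a ^ 2 - 2 * (r + s) * a + r * s) := by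
      have h1 : Odd (3 * a ^ 2) := (by decide : Odd (3 : ℤ)).mul ha.pow
      have h2 : Even (2 * (r + s) * a) := by
        rw [mul_assoc]; exact even_two_mul _
      have h3 : Even (r * s) := hr'.mul_right s
      exact (h1.sub_even h2).add_even h3
    have conv : ∀ x y : ℤ, (3 * a ^ 2 - 2 * (r + s) * a + r * s) * x + t * y = 0 →
        ∃ m, x = 2 * m := by
      intro x y hxy
      have h1 : Even ((3 * a ^ 2 - 2 * (r + s) * a + r * s) * x) := by
        rw [hteven] at hxy
        exact ⟨-(2 ^ k * y), by linarith⟩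
      rcases Int.even_mul.mp h1 with h | h
      · exact absurd h (Int.not_even_iff_odd.mpr hD)
      · exact h.two_dvd
    exact ⟨conv _ _ f1, conv _ _ f2⟩

/-- no root of the cubic of `K_{r,s}` -/
lemma no_root_rs {r s : ℤ} (hr : 1 ≤ r) (hrs : r ≤ s - 2) (α : KK)
    (h : α ^ 3 + ((-(r + s) : ℤ) : KK) * α ^ 2 + ((r * s : ℤ) : KK) * α - 1 = 0) : False := by
  obtain ⟨a, b, c, rfl⟩ := exists_int_coords h
  have key : ∀ k : ℕ, ∃ b' c' : ℤ, b = 2 ^ k * b' ∧ c = 2 ^ k * c' := by
    intro k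
    induction k with
    | zero => exact ⟨b, c, by simp, by simp⟩
    | succ k ih =>
      obtain ⟨b', c', hb, hc⟩ := ih
      rw [hb, hc] at h
      obtain ⟨⟨m, hm⟩, ⟨l, hl⟩⟩ := descent k h
      exact ⟨m, l, by rw [hb, hm, pow_succ]; ring, by rw [hc, hl, pow_succ]; ring⟩
  have zero_of : ∀ x : ℤ, (∀ k : ℕ, (2 : ℤ) ^ k ∣ x) → x = 0 := by
    intro x hx
    by_contra hne
    have h1 := Int.le_of_dvd (by positivity : (0 : ℤ) < |x|) ((dvd_abs _ _).mpr (hx x.natAbs))
    have h2 : (x.natAbs : ℤ) < 2 ^ x.natAbs := by exact_mod_cast Nat.lt_two_pow_self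
    rw [← Int.natCast_natAbs] at h1
    omega
  have hb : b = 0 := zero_of b fun k => by
    obtain ⟨b', c', h1, -⟩ := key k; exact ⟨b', h1⟩
  have hc : c = 0 := zero_of c fun k => by
    obtain ⟨b', c', -, h1⟩ := key k; exact ⟨c', h1⟩
  subst hb hc
  obtain ⟨e0, -, -⟩ := cubic_coords h
  have e : a * ((a - r) * (a - s)) = 1 := by
    simp only [c0, s0, s1, s2] at e0
    linarith
  rcases Int.eq_one_or_neg_one_of_mul_eq_one e with h1 | h1
  · rw [h1, one_mul] at e
    rcases Int.eq_one_or_neg_one_of_mul_eq_one e with h2 | h2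
    · rw [h2] at e; omega
    · rw [h2] at e; omega
  · rw [h1] at e
    nlinarith

lemma eval₂_polyRS {R : Type*} [CommRing R] (g : ℚ →+* R) (z : R) (r s : ℤ) :
    eval₂ g z (polyRS r s) = z * (z - g r) * (z - g s) - 1 := by
  unfold polyRS
  simp only [eval₂_sub, eval₂_mul, eval₂_X, eval₂_C, eval₂_one]

lemma eval₂_polyN {R : Type*} [CommRing R] (g : ℚ →+* R) (z : R) (n : ℤ) :
    eval₂ g z (polyN n) = z ^ 3 + g ((n : ℚ) + 1) * z ^ 2 + g ((n : ℚ) - 2) * z - 1 := by
  unfold polyN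
  simp only [eval₂_add, eval₂_sub, eval₂_mul, eval₂_pow, eval₂_X, eval₂_C, eval₂_one]

theorem not_iso_rs {r s : ℤ} (hr : 1 ≤ r) (hrs : r ≤ s - 2) :
    ¬ Nonempty (KK ≃+* AdjoinRoot (polyRS r s)) := by
  rintro ⟨e⟩
  have h := AdjoinRoot.eval₂_root (polyRS r s)
  rw [eval₂_polyRS] at h
  have h2 := congrArg e.symm h
  simp only [map_sub, map_mul, map_intCast, map_one, map_zero] at h2
  apply no_root_rs hr hrs (e.symm (AdjoinRoot.root (polyRS r s)))
  push_cast
  linear_combination h2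

theorem not_iso_n (n : ℤ) : ¬ Nonempty (KK ≃+* AdjoinRoot (polyN n)) := by
  rintro ⟨e⟩
  have h := AdjoinRoot.eval₂_root (polyN n)
  rw [eval₂_polyN] at h
  have h2 := congrArg e.symm h
  simp only [map_add, map_sub, map_mul, map_pow, map_intCast, map_one, map_zero, map_ofNat] at h2
  apply no_root_n n (e.symm (AdjoinRoot.root (polyN n)))
  push_cast
  linear_combination h2

end Pool.Agent.Lib.MP_6f6b5b_nt
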